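import Pool.Agent.LibCX37.Z2

/-!
A connected part of the essential range of an optimal drawing carries mass at most one half; in particular no continuous drawing is
optimal, nor any drawing which agrees almost everywhere with a continuous one.
-/

set_option autoImplicit false

open MeasureTheory Set
open scoped ENNReal

namespace Pool.Agent.Results.MP_74ff18_co.ConnectedHalf

open Pool.Agent.LibCX37

theorem cd_congr {f g : unitInterval → ℝ × ℝ} (h : f =ᵐ[volume] g) : cd f = cd g := by
  unfold cd
  have hf1 : Filter.Tendsto (fun x : unitInterval × unitInterval × unitInterval × unitInterval => x.1)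
      (ae volume) (ae volume) := Measure.quasiMeasurePreserving_fst.tendsto_ae
  have hs1 : Filter.Tendsto (fun x : unitInterval × unitInterval × unitInterval × unitInterval => x.2)
      (ae volume) (ae volume) := Measure.quasiMeasurePreserving_snd.tendsto_ae
  have hf2 : Filter.Tendsto (fun x : unitInterval × unitInterval × unitInterval => x.1)
      (ae volume) (ae volume) := Measure.quasiMeasurePreserving_fst.tendsto_ae
  have hs2 : Filter.Tendsto (fun x : unitInterval × unitInterval × unitInterval => x.2)
      (ae volume) (ae volume) := Measure.quasiMeasurePreserving_snd.tendsto_ae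
  have hf3 : Filter.Tendsto (fun x : unitInterval × unitInterval => x.1)
      (ae volume) (ae volume) := Measure.quasiMeasurePreserving_fst.tendsto_ae
  have hs3 : Filter.Tendsto (fun x : unitInterval × unitInterval => x.2)
      (ae volume) (ae volume) := Measure.quasiMeasurePreserving_snd.tendsto_ae
  have e1 := hf1.eventually h
  have e2 := (hf2.comp hs1).eventually h
  have e3 := ((hf3.comp hs2).comp hs1).eventually h
  have e4 := ((hs3.comp hs2).comp hs1).eventually h
  congr 2
  apply measure_congr
  filter_upwards [e1, e2, e3, e4] with x h1 h2 h3 h4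
  simp only [Function.comp] at h1 h2 h3 h4
  apply propext
  show Meets (f x.1) (f x.2.1) (f x.2.2.1) (f x.2.2.2) ↔ Meets (g x.1) (g x.2.1) (g x.2.2.1) (g x.2.2.2)
  rw [h1, h2, h3, h4]

/-- Let `f` be a bounded measurable drawing which attains the infimum of `cd`. Then `f` is not almost everywhere equal to a continuous
map, and every preconnected subset `Q` of the essential range of `f` satisfies `volume (f ⁻¹' Q) ≤ 1 / 2`. -/
theorem _root_.Pool.Agent.Results.MP_74ff18_co.ConnectedHalf.result
    (f : unitInterval → ℝ × ℝ) (hf : Attains f) :
    (∀ g : unitInterval → ℝ × ℝ, Continuous g → ¬ f =ᵐ[volume] g) ∧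
      (∀ Q : Set (ℝ × ℝ), Q ⊆ essRange f → IsPreconnected Q → volume (f ⁻¹' Q) ≤ 1 / 2) := by
  refine ⟨fun g hg h => ?_, fun Q hQ hc => hf.preconnected_le Q hQ hc⟩
  have hgd : IsDrawing g := ⟨hg.measurable, (isCompact_range hg).isBounded⟩
  have hga : Attains g := ⟨hgd, fun g' hg' => by rw [← cd_congr h]; exact hf.2 g' hg'⟩
  exact hga.not_continuous hg

end Pool.Agent.Results.MP_74ff18_co.ConnectedHalf
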