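import Pool.Agent.LibCX37.Z3

/-!
An optimal drawing has an essential range which, off one point, is locally contained in a Lipschitz graph; in particular its
Hausdorff dimension is at most one.
-/

set_option autoImplicit false

open MeasureTheory Set
open scoped ENNReal

namespace Pool.Agent.Results.MP_74ff18_co.LocalLipschitzGraph

open Pool.Agent.LibCX37

/-- Let `f` be a bounded measurable drawing which attains the infimum of `cd`. Then there is a point `x₀` such that every `x ≠ x₀` has
a neighbourhood in which the essential range of `f` is contained in the graph of a Lipschitz function over a line (there are a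
direction `w ≠ 0` and `c > 0` with `c ‖z - y‖ ≤ |w.1 (z - y).2 - w.2 (z - y).1|` for all `y`, `z` in this part of the essential range), and
the Hausdorff dimension of the essential range is at most `1`. -/
theorem _root_.Pool.Agent.Results.MP_74ff18_co.LocalLipschitzGraph.result
    (f : unitInterval → ℝ × ℝ) (hf : Attains f) :
    (∃ x₀ : ℝ × ℝ, ∀ x : ℝ × ℝ, x ≠ x₀ → ∃ ε : ℝ, 0 < ε ∧ ∃ w : ℝ × ℝ, w ≠ 0 ∧ ∃ c : ℝ, 0 < c ∧
      ∀ y ∈ essRange f ∩ Metric.ball x ε, ∀ z ∈ essRange f ∩ Metric.ball x ε,
        c * ‖z - y‖ ≤ |w.1 * (z.2 - y.2) - w.2 * (z.1 - y.1)|) ∧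
      dimH (essRange f) ≤ 1 := by
  refine ⟨?_, hf.dimH_le_one⟩
  obtain ⟨x₀, h⟩ := hf.local_graph
  refine ⟨x₀, fun x hx => ?_⟩
  obtain ⟨ε, hε, w, hw, c, hc, h1⟩ := h x hx
  exact ⟨ε, hε, w, hw, c, hc, fun y hy z hz => h1 y hy z hz⟩

end Pool.Agent.Results.MP_74ff18_co.LocalLipschitzGraph
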