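import Pool.Agent.LibCX37.Z

/-!
The pair condition for an optimal drawing.
-/

set_option autoImplicit false

open MeasureTheory Set
open scoped ENNReal

namespace Pool.Agent.Results.MP_74ff18_co.PairHalf

open Pool.Agent.LibCX37

attribute [local irreducible] Nn in
theorem qq_law (f : unitInterval → ℝ × ℝ) (hm : Measurable f) (y z : ℝ × ℝ) :
    qq (law f) y z = ∫⁻ a, ∫⁻ b, Nn y z (f a) (f b) := by
  have h0 : Measurable (fun p : (ℝ × ℝ) × (ℝ × ℝ) => Nn y z p.1 p.2) := k1_measurable_Nn y z
  have h1 : ∀ c : ℝ × ℝ, Measurable (fun d : ℝ × ℝ => Nn y z c d) := fun c =>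
    h0.comp measurable_prodMk_left
  have h3 : Measurable (fun p : (ℝ × ℝ) × unitInterval => Nn y z p.1 (f p.2)) :=
    h0.comp (measurable_fst.prodMk (hm.comp measurable_snd))
  have h2 : Measurable (fun c : ℝ × ℝ => ∫⁻ b, Nn y z c (f b)) := h3.lintegral_prod_right'
  have e : ∀ c : ℝ × ℝ, (∫⁻ d, Nn y z c d ∂(Measure.map f volume)) = ∫⁻ b, Nn y z c (f b) :=
    fun c => lintegral_map (h1 c) hm
  calc qq (law f) y z = ∫⁻ c, ∫⁻ d, Nn y z c d ∂(Measure.map f volume) ∂(Measure.map f volume) := rfl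
    _ = ∫⁻ c, (∫⁻ b, Nn y z c (f b)) ∂(Measure.map f volume) := lintegral_congr e
    _ = ∫⁻ a, ∫⁻ b, Nn y z (f a) (f b) := lintegral_map h2 hm

/-- Let `f` be a bounded measurable drawing which attains the infimum of `cd`. Then for any two distinct points `y`, `z` of the
essential range of `f` the integral over `(a, b)` of the number of the three pairings of `y, z, f a, f b` into two segments whose
closed segments meet is at most `1 / 2`. -/
theorem _root_.Pool.Agent.Results.MP_74ff18_co.PairHalf.result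
    (f : unitInterval → ℝ × ℝ) (hf : Attains f) (y z : ℝ × ℝ) (hy : y ∈ essRange f)
    (hz : z ∈ essRange f) (hyz : y ≠ z) :
    (∫⁻ a, ∫⁻ b, Nn y z (f a) (f b)) ≤ 1 / 2 := by
  have h := hf.pair hy hz hyz
  rwa [qq_law f hf.1.1 y z] at h

end Pool.Agent.Results.MP_74ff18_co.PairHalf
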