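import Pool.Agent.LibCX37.Z4

/-!
The convex hull of the essential range of an optimal drawing is a triangle, and the essential range meets its boundary only in the
three vertices.
-/

set_option autoImplicit false

open MeasureTheory Set
open scoped ENNReal

namespace Pool.Agent.Results.MP_74ff18_co.TriangularHull

open Pool.Agent.LibCX37

/-- Let `f` be a bounded measurable drawing which attains the infimum of `cd`. Then there are three points `A`, `B`, `C` of the
essential range of `f`, not on a line, such that every other point of the essential range lies in the interior of the triangle
`ABC`. -/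
theorem _root_.Pool.Agent.Results.MP_74ff18_co.TriangularHull.result
    (f : unitInterval → ℝ × ℝ) (hf : Attains f) :
    ∃ A ∈ essRange f, ∃ B ∈ essRange f, ∃ C ∈ essRange f, det A B C ≠ 0 ∧
      ∀ p ∈ essRange f, p ≠ A → p ≠ B → p ≠ C →
        p ∈ interior (convexHull ℝ ({A, B, C} : Set (ℝ × ℝ))) :=
  hf.triangle

end Pool.Agent.Results.MP_74ff18_co.TriangularHull
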